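import Mathlib

/-!
# Varieties of Lie algebras: definitions

`FreeLieAlgebra F ℕ` is the free Lie algebra over the field `F` on the countable set of the variables
`FreeLieAlgebra.of F i`, `i = 0, 1, 2, ...`.
-/

set_option autoImplicit false

universe u

namespace Pool.Agent.Run7.h735.DV

/-- A Lie algebra over `F`, of arbitrary dimension. -/
structure Alg (F : Type u) [Field F] where
  /-- the underlying type -/
  carrier : Type u
  [ring : LieRing carrier]
  [algebra : LieAlgebra F carrier]

attribute [instance] Alg.ring Alg.algebra

/-- The Lie monomials of degree `n`: the variables have degree one, and the product of a monomial of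
degree `m` and a monomial of degree `n` has degree `m + n`. -/
inductive Mono (F : Type u) [Field F] : ℕ → FreeLieAlgebra F ℕ → Prop
  | var (i : ℕ) : Mono F 1 (FreeLieAlgebra.of F i)
  | bracket {m n : ℕ} {a b : FreeLieAlgebra F ℕ} :
      Mono F m a → Mono F n b → Mono F (m + n) ⁅a, b⁆

/-- `f` has degree at most `d`: it is a linear combination of Lie monomials of degree at most `d`. -/
def DegLE {F : Type u} [Field F] (d : ℕ) (f : FreeLieAlgebra F ℕ) : Prop :=
  f ∈ Submodule.span F {a | ∃ n, n ≤ d ∧ Mono F n a}

/-- `f` is an identity of `A`: it vanishes under every substitution of elements of `A` for the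
variables. -/
def IsIdentity {F : Type u} [Field F] (f : FreeLieAlgebra F ℕ) (A : Alg F) : Prop :=
  ∀ x : ℕ → A.carrier, FreeLieAlgebra.lift F x f = 0

/-- The class of all Lie algebras which satisfy all identities in `S`. -/
def Var {F : Type u} [Field F] (S : Set (FreeLieAlgebra F ℕ)) : Set (Alg F) :=
  {A | ∀ f ∈ S, IsIdentity f A}

/-- `V` is a variety. -/
def IsVariety {F : Type u} [Field F] (V : Set (Alg F)) : Prop := ∃ S, V = Var S

/-- The smallest variety which contains `V` and `W`. -/
def join {F : Type u} [Field F] (V W : Set (Alg F)) : Set (Alg F) :=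
  {A | ∀ U, IsVariety U → V ⊆ U → W ⊆ U → A ∈ U}

/-- The lattice of the subvarieties of `V` is distributive; the meet is the intersection. -/
def Distributive {F : Type u} [Field F] (V : Set (Alg F)) : Prop :=
  ∀ X Y Z, IsVariety X → X ⊆ V → IsVariety Y → Y ⊆ V → IsVariety Z → Z ⊆ V →
    X ∩ join Y Z = join (X ∩ Y) (X ∩ Z)

/-- The subvarieties of `V` form a chain. -/
def Chain {F : Type u} [Field F] (V : Set (Alg F)) : Prop :=
  ∀ X Y, IsVariety X → X ⊆ V → IsVariety Y → Y ⊆ V → X ⊆ Y ∨ Y ⊆ X

/-- `V` is defined by identities of degree at most `d`: it has a basis of identities all of whose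
elements have degree at most `d`. -/
def DefinedInDegree {F : Type u} [Field F] (d : ℕ) (V : Set (Alg F)) : Prop :=
  ∃ S, (∀ f ∈ S, DegLE d f) ∧ V = Var S

end Pool.Agent.Run7.h735.DV
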