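import Pool.Agent.Run7.h735.DV.Poly

/-!
# Right-normed products, nilpotency and the Engel condition in metabelian Lie algebras
-/

set_option autoImplicit false

universe u

open Polynomial

namespace Pool.Agent.Run7.h735.DV

section

variable {A : Type u} [LieRing A]

/-- `[y₁, [y₂, … [yₙ, z]]]` -/
def rn (l : List A) (z : A) : A := l.foldr (fun y w => ⁅y, w⁆) z

@[simp] lemma rn_nil (z : A) : rn [] z = z := rfl
@[simp] lemma rn_cons (y : A) (l : List A) (z : A) : rn (y :: l) z = ⁅y, rn l z⁆ := rfl

lemma rn_append (l l' : List A) (z : A) : rn (l ++ l') z = rn l (rn l' z) := by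
  induction l with
  | nil => rfl
  | cons y l ih => rw [List.cons_append, rn_cons, ih, rn_cons]

lemma rn_zero (l : List A) : rn l (0 : A) = 0 := by
  induction l with
  | nil => rfl
  | cons y l ih => rw [rn_cons, ih, lie_zero]

lemma rn_add (l : List A) (a b : A) : rn l (a + b) = rn l a + rn l b := by
  induction l with
  | nil => rfl
  | cons y l ih => rw [rn_cons, ih, lie_add, rn_cons, rn_cons]

lemma rn_neg (l : List A) (a : A) : rn l (-a) = -rn l a := by
  induction l with
  | nil => rfl
  | cons y l ih => rw [rn_cons, ih, lie_neg, rn_cons]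

/-- class at most `n` -/
def NP (n : ℕ) (A : Type u) [LieRing A] : Prop := ∀ (l : List A) (z : A), l.length = n → rn l z = 0

lemma NP_mono {m n : ℕ} (h : m ≤ n) (hA : NP m A) : NP n A := by
  intro l z hl
  rw [← List.take_append_drop m l, rn_append]
  exact hA _ _ (by rw [List.length_take]; omega)

/-- `b` commutes with all products -/
def Dd (b : A) : Prop := ∀ y z : A, ⁅⁅y, z⁆, b⁆ = 0

/-- metabelian -/
def Mtb (A : Type u) [LieRing A] : Prop := ∀ a b c d : A, ⁅⁅a, b⁆, ⁅c, d⁆⁆ = 0

lemma Dd_lie (hA : Mtb A) (a b : A) : Dd ⁅a, b⁆ := fun y z => hA y z a b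

lemma Dd_rn (hA : Mtb A) (l : List A) {b : A} (hb : Dd b) : Dd (rn l b) := by
  cases l with
  | nil => exact hb
  | cons y l => exact Dd_lie hA _ _

lemma rn_perm (hA : Mtb A) {l l' : List A} (h : l.Perm l') {b : A} (hb : Dd b) :
    rn l b = rn l' b := by
  induction h with
  | nil => rfl
  | cons x _ ih => rw [rn_cons, ih, rn_cons]
  | swap x y l =>
    simp only [rn_cons]
    have h1 := Dd_rn hA l hb y x
    rw [lie_lie] at h1
    exact sub_eq_zero.1 h1
  | trans _ _ ih1 ih2 => exact ih1.trans ih2

end

section

variable {F : Type u} [Field F] {A : Type u} [LieRing A] [LieAlgebra F A]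

lemma rn_smul (r : F) (l : List A) (a : A) : rn l (r • a) = r • rn l a := by
  induction l with
  | nil => rfl
  | cons y l ih => rw [rn_cons, ih, lie_smul, rn_cons]

lemma ad_pow (y z : A) (k : ℕ) : ((LieAlgebra.ad F A y) ^ k) z = rn (List.replicate k y) z := by
  induction k with
  | zero => rfl
  | succ k ih =>
    rw [pow_succ', Module.End.mul_apply, ih, LieAlgebra.ad_apply, List.replicate_succ, rn_cons]

lemma J_rn {φ : F → A} {c0 c1 : A} (l : List A) (h : J φ c0 c1) :
    J (fun s => rn l (φ s)) (rn l c0) (rn l c1) := by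
  induction l with
  | nil => exact h
  | cons y l ih =>
    have := J_lie (J_const y) ih
    simpa only [rn_cons, zero_lie, add_zero] using this

lemma J_pow (hA : Mtb A) (u v w : A) (M : ℕ) :
    J (fun s : F => rn (List.replicate M (u + s • v)) ⁅u + s • v, w⁆)
      (rn (List.replicate M u) ⁅u, w⁆)
      (rn (List.replicate M u) ⁅v, w⁆ + (M : F) • rn (v :: List.replicate (M - 1) u) ⁅u, w⁆) := by
  induction M with
  | zero =>
    have := J_lie (J_lin (F := F) u v) (J_const w)
    simpa using this
  | succ M ih =>
    have := J_lie (J_lin (F := F) u v) ih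
    simp only [List.replicate_succ, rn_cons, Nat.add_sub_cancel]
    convert this using 1
    rw [lie_add, lie_smul, add_assoc]
    congr 1
    have h1 : (M : F) • ⁅u, rn (v :: List.replicate (M - 1) u) ⁅u, w⁆⁆ =
        (M : F) • ⁅v, rn (List.replicate M u) ⁅u, w⁆⁆ := by
      rcases Nat.eq_zero_or_pos M with h0 | h0
      · subst h0
        simp
      · congr 1
        have h2 := rn_perm hA (List.Perm.swap v u (List.replicate (M - 1) u)) (Dd_lie hA u w)
        have h3 : List.replicate M u = u :: List.replicate (M - 1) u := by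
          rw [← List.replicate_succ]
          congr 1
          omega
        rw [h3]
        exact h2
    rw [h1]
    push_cast
    rw [add_smul, one_smul]

/-- metabelian Engel algebras are nilpotent -/
theorem engel [CharZero F] (hA : Mtb A) {k : ℕ}
    (h : ∀ y z : A, rn (List.replicate k y) z = 0) : NP k A := by
  rcases k with _ | k
  · intro l z hl
    rw [List.length_eq_zero_iff.1 hl]
    exact h 0 z
  have key : ∀ j m, j + m = k → ∀ l : List A, l.length = j → ∀ u w : A,
      rn l (rn (List.replicate m u) ⁅u, w⁆) = 0 := by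
    intro j
    induction j with
    | zero =>
      intro m hm l hl u w
      rw [List.length_eq_zero_iff.1 hl, rn_nil]
      have := h u w
      rw [List.replicate_succ', rn_append] at this
      have e : m = k := by omega
      rw [e]
      exact this
    | succ j ih =>
      intro m hm l hl u w
      obtain ⟨v, l', rfl⟩ : ∃ v l', l = v :: l' := by
        cases l with
        | nil => simp at hl
        | cons v l' => exact ⟨v, l', rfl⟩
      have hl' : l'.length = j := by simpa using hl
      -- the linear term
      have hc : ∀ v w : A, rn l' (rn (List.replicate (m + 1) u) ⁅v, w⁆) +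
          ((m + 1 : ℕ) : F) • rn l' (rn (v :: List.replicate m u) ⁅u, w⁆) = 0 := by
        intro v w
        have h1 := J_rn l' (J_pow (F := F) hA u v w (m + 1))
        have h2 := (J_ext h1 fun s => ih (m + 1) (by omega) l' hl' (u + s • v) w).2
        rw [rn_add, rn_smul] at h2
        exact h2
      -- the operator T
      have hX1 : ∀ v w : A, rn l' (rn (v :: List.replicate m u) ⁅u, w⁆) =
          rn l' (rn (List.replicate m u) ⁅v, ⁅u, w⁆⁆) := by
        intro v w
        have h1 : (v :: List.replicate m u).Perm (List.replicate m u ++ [v]) := by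
          exact (List.perm_append_singleton v (List.replicate m u)).symm
        rw [rn_perm hA h1 (Dd_lie hA u w), rn_append]
        rfl
      have hX2 : ∀ v w : A, rn l' (rn (List.replicate (m + 1) u) ⁅v, w⁆) =
          rn l' (rn (List.replicate m u) ⁅v, ⁅u, w⁆⁆) -
            rn l' (rn (List.replicate m u) ⁅w, ⁅u, v⁆⁆) := by
        intro v w
        rw [List.replicate_succ', rn_append, rn_cons, rn_nil, leibniz_lie, ← lie_skew w ⁅u, v⁆,
          rn_add, rn_add, rn_neg, rn_neg]
        abel
      have h3 : ∀ v w : A, ((m + 2 : ℕ) : F) • rn l' (rn (List.replicate m u) ⁅v, ⁅u, w⁆⁆) =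
          rn l' (rn (List.replicate m u) ⁅w, ⁅u, v⁆⁆) := by
        intro v w
        have := hc v w
        rw [hX1, hX2] at this
        have e : ((m + 2 : ℕ) : F) = ((m + 1 : ℕ) : F) + 1 := by push_cast; ring
        rw [e, add_smul, one_smul, ← sub_eq_zero, ← this]
        abel
      have h4 := h3 v w
      rw [← h3 w v, smul_smul] at h4
      have h5 : (((m + 2 : ℕ) : F) * ((m + 2 : ℕ) : F) - 1) •
          rn l' (rn (List.replicate m u) ⁅v, ⁅u, w⁆⁆) = 0 := by
        have h6 := h3 v w
        have h7 := h3 w v
        rw [sub_smul, one_smul, mul_smul, h6, h7, sub_self]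
      have h8 : (((m + 2 : ℕ) : F) * ((m + 2 : ℕ) : F) - 1) ≠ 0 := by
        have : (((m + 2 : ℕ) : F) * ((m + 2 : ℕ) : F) - 1) = (((m + 1) * (m + 3) : ℕ) : F) := by
          push_cast
          ring
        rw [this]
        exact Nat.cast_ne_zero.2 (by positivity)
      have h9 := (smul_eq_zero.1 h5).resolve_left h8
      have h10 : rn (v :: l') (rn (List.replicate m u) ⁅u, w⁆) =
          rn l' (rn (v :: List.replicate m u) ⁅u, w⁆) := by
        rw [← rn_append, ← rn_append]
        refine rn_perm hA ?_ (Dd_lie hA u w)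
        exact List.perm_middle.symm
      rw [h10, hX1]
      exact h9
  intro l z hl
  have hne : l ≠ [] := by
    rintro rfl
    simp at hl
  rw [← List.dropLast_append_getLast hne, rn_append]
  exact key k 0 (by omega) l.dropLast (by rw [List.length_dropLast]; omega) (l.getLast hne) z

/-- the terms of the lower central series -/
def G (F : Type u) [Field F] (A : Type u) [LieRing A] [LieAlgebra F A] (n : ℕ) : Submodule F A :=
  Submodule.span F {w | ∃ (l : List A) (z : A), l.length = n ∧ w = rn l z}

lemma G_lie1 (y : A) {n : ℕ} {w : A} (hw : w ∈ G F A n) : ⁅y, w⁆ ∈ G F A (n + 1) := by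
  induction hw using Submodule.span_induction with
  | mem w h =>
    obtain ⟨l, z, hl, rfl⟩ := h
    exact Submodule.subset_span ⟨y :: l, z, by simp [hl], rfl⟩
  | zero => rw [lie_zero]; exact zero_mem _
  | add a b _ _ ha hb => rw [lie_add]; exact add_mem ha hb
  | smul r a _ ha => rw [lie_smul]; exact (G F A (n + 1)).smul_mem r ha

lemma G_rn (l : List A) (z : A) : ∀ (n : ℕ) (w : A), w ∈ G F A n →
    ⁅rn l z, w⁆ ∈ G F A (l.length + n + 1) := by
  induction l with
  | nil =>
    intro n w hw
    have := G_lie1 z hw
    simpa using this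
  | cons y l ih =>
    intro n w hw
    rw [rn_cons, lie_lie]
    refine sub_mem ?_ ?_
    · have := G_lie1 (F := F) y (ih n w hw)
      convert this using 2
      simp only [List.length_cons]
      omega
    · have := ih (n + 1) _ (G_lie1 (F := F) y hw)
      convert this using 2
      simp only [List.length_cons]
      omega

lemma G_lie {m n : ℕ} {a b : A} (ha : a ∈ G F A m) (hb : b ∈ G F A n) :
    ⁅a, b⁆ ∈ G F A (m + n + 1) := by
  induction ha using Submodule.span_induction with
  | mem w h =>
    obtain ⟨l, z, hl, rfl⟩ := h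
    rw [← hl]
    exact G_rn l z n b hb
  | zero => rw [zero_lie]; exact zero_mem _
  | add a b _ _ ha hb => rw [add_lie]; exact add_mem ha hb
  | smul r a _ ha => rw [smul_lie]; exact Submodule.smul_mem _ r ha

lemma G_anti {m n : ℕ} (h : m ≤ n) : G F A n ≤ G F A m := by
  refine Submodule.span_le.2 ?_
  rintro _ ⟨l, z, hl, rfl⟩
  refine Submodule.subset_span ⟨l.take m, rn (l.drop m) z, by rw [List.length_take]; omega, ?_⟩
  rw [← rn_append, List.take_append_drop]

lemma G_bot {n : ℕ} (h : NP n A) : G F A n = ⊥ := by
  refine Submodule.span_eq_bot.2 ?_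
  rintro _ ⟨l, z, hl, rfl⟩
  exact h l z hl

lemma mono_pos {n : ℕ} {a : FreeLieAlgebra F ℕ} (h : Mono F n a) : 1 ≤ n := by
  induction h with
  | var i => exact le_rfl
  | bracket _ _ h1 h2 => omega

lemma mono_G (x : ℕ → A) {n : ℕ} {a : FreeLieAlgebra F ℕ} (h : Mono F n a) :
    FreeLieAlgebra.lift F x a ∈ G F A (n - 1) := by
  induction h with
  | var i =>
    rw [FreeLieAlgebra.lift_of_apply]
    exact Submodule.subset_span ⟨[], x i, rfl, rfl⟩
  | bracket h1 h2 ih1 ih2 =>
    rw [LieHom.map_lie]
    have := G_lie ih1 ih2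
    have p1 := mono_pos h1
    have p2 := mono_pos h2
    convert this using 2
    omega

/-- monomials of large degree vanish in nilpotent algebras -/
lemma mono_zero {c : ℕ} (hA : NP c A) (x : ℕ → A) {n : ℕ} {a : FreeLieAlgebra F ℕ}
    (h : Mono F n a) (hn : c < n) : FreeLieAlgebra.lift F x a = 0 := by
  have h1 := G_anti (F := F) (A := A) (show c ≤ n - 1 by omega) (mono_G x h)
  rw [G_bot hA] at h1
  exact (Submodule.mem_bot F).1 h1

end

end Pool.Agent.Run7.h735.DV
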