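import Pool.Agent.Run7.h735.DV.Poly

/-!
# The Lie algebras `F a ⊕ R`, `[a, v] = t v`
-/

set_option autoImplicit false

universe u

open Polynomial

namespace Pool.Agent.Run7.h735.DV

/-- `F a ⊕ R` -/
structure MM (F : Type u) [Field F] (R : Type u) [CommRing R] [Algebra F R] (t : R) : Type u where
  /-- the coefficient of `a` -/
  x : F
  /-- the part in `R` -/
  v : R

namespace MM

variable {F : Type u} [Field F] {R : Type u} [CommRing R] [Algebra F R] {t : R}

@[ext] lemma ext' {p q : MM F R t} (h1 : p.x = q.x) (h2 : p.v = q.v) : p = q := by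
  cases p; cases q; simp_all

/-- pairs -/
def equiv : MM F R t ≃ F × R where
  toFun p := (p.x, p.v)
  invFun p := ⟨p.1, p.2⟩
  left_inv _ := rfl
  right_inv _ := rfl

instance : AddCommGroup (MM F R t) := equiv.addCommGroup
instance : Module F (MM F R t) := equiv.module F

@[simp] lemma add_x (p q : MM F R t) : (p + q).x = p.x + q.x := rfl
@[simp] lemma add_v (p q : MM F R t) : (p + q).v = p.v + q.v := rfl
@[simp] lemma smul_x (r : F) (p : MM F R t) : (r • p).x = r * p.x := rfl
@[simp] lemma smul_v (r : F) (p : MM F R t) : (r • p).v = r • p.v := rfl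
@[simp] lemma zero_x : (0 : MM F R t).x = 0 := rfl
@[simp] lemma zero_v : (0 : MM F R t).v = 0 := rfl

instance : Bracket (MM F R t) (MM F R t) := ⟨fun p q => ⟨0, t * (p.x • q.v - q.x • p.v)⟩⟩

@[simp] lemma lie_x (p q : MM F R t) : ⁅p, q⁆.x = 0 := rfl
@[simp] lemma lie_v (p q : MM F R t) : ⁅p, q⁆.v = t * (p.x • q.v - q.x • p.v) := rfl

instance : LieRing (MM F R t) where
  add_lie p q r := by
    ext
    · simp
    · simp only [lie_v, add_v, add_x, add_smul, smul_add]; ring
  lie_add p q r := by
    ext
    · simp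
    · simp only [lie_v, add_v, add_x, add_smul, smul_add]; ring
  lie_self p := by
    ext
    · simp
    · simp
  leibniz_lie p q r := by
    ext
    · simp
    · simp only [lie_v, lie_x, add_v, Algebra.smul_def, map_zero]
      ring

instance : LieAlgebra F (MM F R t) where
  lie_smul r p q := by
    ext
    · simp
    · simp only [lie_v, smul_v, smul_x, Algebra.smul_def, map_mul]
      ring

/-- functoriality -/
def map {R' : Type u} [CommRing R'] [Algebra F R'] {t' : R'} (φ : R →ₐ[F] R') (h : φ t = t') :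
    MM F R t →ₗ⁅F⁆ MM F R' t' where
  toFun p := ⟨p.x, φ p.v⟩
  map_add' p q := by ext <;> simp
  map_smul' r p := by ext <;> simp
  map_lie' {p q} := by
    ext
    · simp
    · simp only [lie_v, map_mul, map_sub, map_smul, h]

lemma map_x {R' : Type u} [CommRing R'] [Algebra F R'] {t' : R'} (φ : R →ₐ[F] R') (h : φ t = t')
    (p : MM F R t) : (map φ h p).x = p.x := rfl

lemma map_v {R' : Type u} [CommRing R'] [Algebra F R'] {t' : R'} (φ : R →ₐ[F] R') (h : φ t = t')
    (p : MM F R t) : (map φ h p).v = φ p.v := rfl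

lemma metab (p q r s : MM F R t) : ⁅⁅p, q⁆, ⁅r, s⁆⁆ = 0 := by
  ext
  · rfl
  · rw [lie_v, lie_x, lie_x, zero_smul, zero_smul, sub_self, mul_zero, zero_v]

end MM

end Pool.Agent.Run7.h735.DV
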