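import Pool.Agent.Run7.h735.DV.Engel
import Pool.Agent.Run7.h735.DV.Model

/-!
# The varieties generated by `F a ⊕ F[t]/(t^c)`
-/

set_option autoImplicit false

universe u

open Polynomial

namespace Pool.Agent.Run7.h735.DV

variable {F : Type u} [Field F]

/-- `F a ⊕ F[t]` -/
abbrev MX (F : Type u) [Field F] := MM F F[X] (X : F[X])

/-- `F[t]/(t^c)` -/
abbrev RC (F : Type u) [Field F] (c : ℕ) := F[X] ⧸ Ideal.span {(X : F[X]) ^ c}

/-- `F a ⊕ F[t]/(t^c)` -/
abbrev MC (F : Type u) [Field F] (c : ℕ) :=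
  MM F (RC F c) (Ideal.Quotient.mkₐ F (Ideal.span {(X : F[X]) ^ c}) X)

/-- the projection -/
noncomputable def proj (F : Type u) [Field F] (c : ℕ) : MX F →ₗ⁅F⁆ MC F c :=
  MM.map (Ideal.Quotient.mkₐ F (Ideal.span {(X : F[X]) ^ c})) rfl

lemma proj_surj (c : ℕ) : Function.Surjective (proj F c) := by
  intro p
  obtain ⟨v, hv⟩ := Ideal.Quotient.mkₐ_surjective F (Ideal.span {(X : F[X]) ^ c}) p.v
  refine ⟨⟨p.x, v⟩, ?_⟩
  apply MM.ext'
  · rfl
  · exact hv

lemma proj_zero {c : ℕ} {p : MX F} : proj F c p = 0 ↔ p.x = 0 ∧ (X : F[X]) ^ c ∣ p.v := by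
  rw [← Ideal.mem_span_singleton, ← Ideal.Quotient.eq_zero_iff_mem]
  constructor
  · intro h
    exact ⟨congrArg MM.x h, congrArg MM.v h⟩
  · rintro ⟨h1, h2⟩
    apply MM.ext'
    · exact h1
    · exact h2

/-- the algebras -/
noncomputable def algX (F : Type u) [Field F] : Alg F := ⟨MX F⟩

/-- the algebras -/
noncomputable def algC (F : Type u) [Field F] (c : ℕ) : Alg F := ⟨MC F c⟩

lemma lift_map {A B : Type u} [LieRing A] [LieAlgebra F A] [LieRing B] [LieAlgebra F B]
    (g : A →ₗ⁅F⁆ B) (x : ℕ → A) (f : FreeLieAlgebra F ℕ) :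
    FreeLieAlgebra.lift F (fun i => g (x i)) f = g (FreeLieAlgebra.lift F x f) := by
  have : FreeLieAlgebra.lift F (fun i => g (x i)) = g.comp (FreeLieAlgebra.lift F x) := by
    apply FreeLieAlgebra.hom_ext
    intro i
    simp
  rw [this]
  rfl

lemma identity_of_surj {A B : Alg F} (g : A.carrier →ₗ⁅F⁆ B.carrier) (hg : Function.Surjective g)
    {f : FreeLieAlgebra F ℕ} (h : IsIdentity f A) : IsIdentity f B := by
  intro x
  choose y hy using fun i => hg (x i)
  have : x = fun i => g (y i) := funext fun i => (hy i).symm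
  rw [this, lift_map, h y, map_zero]

lemma X_to_C {f : FreeLieAlgebra F ℕ} (h : IsIdentity f (algX F)) (c : ℕ) :
    IsIdentity f (algC F c) :=
  identity_of_surj (A := algX F) (B := algC F c) (proj F c) (proj_surj c) h

lemma degree_C_mul_le' (r : F) (p : F[X]) : (C r * p).degree ≤ p.degree := by
  rw [← smul_eq_C_mul]
  exact degree_smul_le r p

/-- the shape of the values of elements of small degree -/
def Shape (d : ℕ) (α : ℕ → F) (f : FreeLieAlgebra F ℕ) : Prop :=
  ∃ (r : F) (q : ℕ →₀ F[X]), (∀ i, q i ∈ degreeLT F d) ∧ ∀ p : ℕ → F[X],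
    FreeLieAlgebra.lift F (fun i => (⟨α i, p i⟩ : MX F)) f =
      ⟨r, Finsupp.linearCombination F[X] p q⟩

lemma shape_mono {n : ℕ} {a : FreeLieAlgebra F ℕ} (α : ℕ → F) (h : Mono F n a) :
    Shape n α a := by
  induction h with
  | var i =>
    refine ⟨α i, Finsupp.single i 1, fun j => ?_, fun p => ?_⟩
    · rw [mem_degreeLT, Finsupp.single_apply]
      split_ifs
      · rw [degree_one]
        norm_num
      · rw [degree_zero]
        exact bot_lt_iff_ne_bot.2 (by simp)
    · rw [FreeLieAlgebra.lift_of_apply, Finsupp.linearCombination_single, one_smul]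
  | @bracket m n a b h1 h2 ih1 ih2 =>
    obtain ⟨r, q, hq, e⟩ := ih1
    obtain ⟨r', q', hq', e'⟩ := ih2
    have p1 := mono_pos h1
    have p2 := mono_pos h2
    refine ⟨0, (X : F[X]) • (C r • q' - C r' • q), fun i => ?_, fun p => ?_⟩
    · rw [mem_degreeLT]
      simp only [Finsupp.smul_apply, Finsupp.sub_apply, smul_eq_mul]
      have k1 := mem_degreeLT.1 (hq i)
      have k2 := mem_degreeLT.1 (hq' i)
      have k3 : (C r * q' i - C r' * q i).degree < ((m + n - 1 : ℕ) : WithBot ℕ) := by
        refine lt_of_le_of_lt (degree_sub_le _ _) (max_lt ?_ ?_)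
        · refine lt_of_le_of_lt (degree_C_mul_le' _ _) (lt_of_lt_of_le k2 ?_)
          exact_mod_cast (by omega : n ≤ m + n - 1)
        · refine lt_of_le_of_lt (degree_C_mul_le' _ _) (lt_of_lt_of_le k1 ?_)
          exact_mod_cast (by omega : m ≤ m + n - 1)
      rcases eq_or_ne (C r * q' i - C r' * q i) 0 with h0 | h0
      · rw [h0, mul_zero, degree_zero]
        exact bot_lt_iff_ne_bot.2 (by simp)
      · rw [mul_comm, degree_mul_X, degree_eq_natDegree h0]
        rw [degree_eq_natDegree h0] at k3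
        have k4 : (C r * q' i - C r' * q i).natDegree < m + n - 1 := by exact_mod_cast k3
        exact_mod_cast (by omega : (C r * q' i - C r' * q i).natDegree + 1 < m + n)
    · rw [LieHom.map_lie, e p, e' p]
      apply MM.ext'
      · rfl
      · simp only [MM.lie_v, map_smul, map_sub, smul_eq_mul, Algebra.smul_def]
        rfl

lemma shape_le {d : ℕ} {f : FreeLieAlgebra F ℕ} (α : ℕ → F) (h : DegLE d f) : Shape d α f := by
  unfold DegLE at h
  induction h using Submodule.span_induction with
  | mem f h =>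
    obtain ⟨n, hn, h⟩ := h
    obtain ⟨r, q, hq, e⟩ := shape_mono α h
    exact ⟨r, q, fun i => degreeLT_mono hn (hq i), e⟩
  | zero =>
    refine ⟨0, 0, fun i => (degreeLT F d).zero_mem, fun p => ?_⟩
    rw [map_zero, map_zero]
    rfl
  | add a b _ _ ha hb =>
    obtain ⟨r, q, hq, e⟩ := ha
    obtain ⟨r', q', hq', e'⟩ := hb
    refine ⟨r + r', q + q', fun i => (degreeLT F d).add_mem (hq i) (hq' i), fun p => ?_⟩
    rw [map_add, map_add, e, e']
    rfl
  | smul s a _ ha =>
    obtain ⟨r, q, hq, e⟩ := ha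
    refine ⟨s * r, C s • q, fun i => ?_, fun p => ?_⟩
    · have := (degreeLT F d).smul_mem s (hq i)
      rwa [Polynomial.smul_eq_C_mul] at this
    · rw [map_smul, map_smul, e]
      apply MM.ext'
      · rfl
      · rw [MM.smul_v, Polynomial.smul_eq_C_mul]
        rfl

/-- identities of small degree of the truncated algebra hold in the whole algebra -/
lemma C_to_X {d : ℕ} {f : FreeLieAlgebra F ℕ} (hd : DegLE d f) (h : IsIdentity f (algC F d)) :
    IsIdentity f (algX F) := by
  intro x
  have hx : x = fun i => (⟨(x i : MX F).x, (x i : MX F).v⟩ : MX F) := rfl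
  obtain ⟨r, q, hq, e⟩ := shape_le (fun i => (x i : MX F).x) hd
  have key : ∀ p : ℕ → F[X], r = 0 ∧ (X : F[X]) ^ d ∣ Finsupp.linearCombination F[X] p q := by
    intro p
    have h1 := h fun i => proj F d ⟨(x i : MX F).x, p i⟩
    have h2 := lift_map (proj F d) (fun i => (⟨(x i : MX F).x, p i⟩ : MX F)) f
    have h3 : proj F d (FreeLieAlgebra.lift F (fun i => (⟨(x i : MX F).x, p i⟩ : MX F)) f) = 0 :=
      h2.symm.trans h1
    rw [e p, proj_zero] at h3
    exact h3
  have hq0 : q = 0 := by
    ext1 i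
    have h1 := (key (Pi.single i 1)).2
    have h2 : Finsupp.linearCombination F[X] (Pi.single i (1 : F[X]) : ℕ → F[X]) q = q i := by
      rw [Finsupp.linearCombination_apply, Finsupp.sum]
      by_cases hi : i ∈ q.support
      · rw [Finset.sum_eq_single i]
        · simp
        · intro j _ hj
          simp [Pi.single_eq_of_ne hj]
        · intro h'
          exact absurd hi h'
      · rw [Finsupp.notMem_support_iff.1 hi]
        refine Finset.sum_eq_zero fun j hj => ?_
        have hj : j ≠ i := by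
          rintro rfl
          exact hi hj
        simp [Pi.single_eq_of_ne hj]
    rw [h2] at h1
    have h3 := mem_degreeLT.1 (hq i)
    by_contra h0
    have h4 := degree_le_of_dvd h1 h0
    rw [degree_X_pow] at h4
    exact absurd h3 (not_lt.2 h4)
  have h5 := e fun i => (x i : MX F).v
  rw [hq0, map_zero, (key 0).1] at h5
  exact h5

/-! ### Nilpotency and the metabelian identity -/

lemma hom_rn {A B : Type u} [LieRing A] [LieAlgebra F A] [LieRing B] [LieAlgebra F B]
    (g : A →ₗ⁅F⁆ B) (l : List A) (z : A) : g (rn l z) = rn (l.map g) (g z) := by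
  induction l with
  | nil => rfl
  | cons y l ih => rw [rn_cons, LieHom.map_lie, ih, List.map_cons, rn_cons]

lemma MM_rn {R : Type u} [CommRing R] [Algebra F R] {t : R} (l : List (MM F R t)) (z : MM F R t)
    (hl : l ≠ []) : (rn l z).x = 0 ∧ ∃ r, (rn l z).v = t ^ l.length * r := by
  induction l with
  | nil => exact absurd rfl hl
  | cons y l ih =>
    refine ⟨rfl, ?_⟩
    rcases eq_or_ne l [] with rfl | h
    · exact ⟨_, by rw [rn_cons, rn_nil, MM.lie_v, List.length_singleton, pow_one]⟩
    · obtain ⟨h1, r, h2⟩ := ih h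
      refine ⟨y.x • r, ?_⟩
      rw [rn_cons, MM.lie_v, h1, zero_smul, sub_zero, h2, List.length_cons, pow_succ',
        Algebra.smul_def, Algebra.smul_def]
      ring

lemma NP_C {c : ℕ} (hc : 1 ≤ c) : NP c (MC F c) := by
  intro l z hl
  have hne : l ≠ [] := by
    rintro rfl
    simp at hl
    omega
  obtain ⟨h1, r, h2⟩ := MM_rn l z hne
  apply MM.ext'
  · exact h1
  · rw [h2, hl]
    have : (Ideal.Quotient.mkₐ F (Ideal.span {(X : F[X]) ^ c}) X) ^ c = 0 := by
      rw [← map_pow]
      exact Ideal.Quotient.eq_zero_iff_mem.2 (Ideal.mem_span_singleton_self _)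
    rw [this, zero_mul]
    rfl

/-- the variety generated by `F a ⊕ F[t]/(t^c)` -/
def VC (F : Type u) [Field F] (c : ℕ) : Set (Alg F) := Var {f | IsIdentity f (algC F c)}

lemma C_mem_VC (c : ℕ) : algC F c ∈ VC F c := fun _ hf => hf

lemma VC_NP {c : ℕ} (hc : 1 ≤ c) {A : Alg F} (hA : A ∈ VC F c) : NP c A.carrier := by
  intro l z hl
  let f : FreeLieAlgebra F ℕ :=
    rn ((List.range c).map fun i => FreeLieAlgebra.of F (i + 1)) (FreeLieAlgebra.of F 0)
  have hf : IsIdentity f (algC F c) := by
    intro x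
    have := hom_rn (FreeLieAlgebra.lift F x) ((List.range c).map fun i => FreeLieAlgebra.of F (i + 1))
      (FreeLieAlgebra.of F 0)
    refine this.trans ?_
    have hNP : NP c (algC F c).carrier := NP_C hc
    exact hNP _ _ (by rw [List.length_map, List.length_map, List.length_range])
  have h1 := hA f hf fun i => if i = 0 then z else l.getD (i - 1) 0
  have h2 := hom_rn (FreeLieAlgebra.lift F fun i => if i = 0 then z else l.getD (i - 1) 0)
    ((List.range c).map fun i => FreeLieAlgebra.of F (i + 1)) (FreeLieAlgebra.of F 0)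
  have h3 := h2.symm.trans h1
  rw [List.map_map, FreeLieAlgebra.lift_of_apply, if_pos rfl] at h3
  have h4 : (List.range c).map ((FreeLieAlgebra.lift F fun i => if i = 0 then z else
      l.getD (i - 1) 0) ∘ fun i => FreeLieAlgebra.of F (i + 1)) = l := by
    apply List.ext_getElem
    · simp [hl]
    · intro i h1 h2
      simp only [List.getElem_map, List.getElem_range, Function.comp_apply,
        FreeLieAlgebra.lift_of_apply]
      rw [if_neg (Nat.succ_ne_zero i), Nat.add_sub_cancel]
      exact List.getD_eq_getElem _ _ h2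
  rw [h4] at h3
  exact h3

lemma VC_mtb {c : ℕ} {A : Alg F} (hA : A ∈ VC F c) : Mtb A.carrier := by
  intro a b a' b'
  have hf : IsIdentity (⁅⁅FreeLieAlgebra.of F 0, FreeLieAlgebra.of F 1⁆,
      ⁅FreeLieAlgebra.of F 2, FreeLieAlgebra.of F 3⁆⁆ : FreeLieAlgebra F ℕ) (algC F c) := by
    intro x
    rw [LieHom.map_lie, LieHom.map_lie, LieHom.map_lie]
    exact MM.metab _ _ _ _
  have h1 := hA _ hf fun i => if i = 0 then a else if i = 1 then b else if i = 2 then a' else b'
  rw [LieHom.map_lie, LieHom.map_lie, LieHom.map_lie] at h1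
  simpa [FreeLieAlgebra.lift_of_apply] using h1

/-! ### The two halves of the classification -/

/-- values on `α y + s p(ad y) z` -/
lemma J_val {A : Type u} [LieRing A] [LieAlgebra F A] (α : ℕ → F) (p : ℕ → F[X]) (y z : A)
    (f : FreeLieAlgebra F ℕ) :
    J (fun s : F => FreeLieAlgebra.lift F
        (fun i => α i • y + s • aeval (LieAlgebra.ad F A y) (p i) z) f)
      ((FreeLieAlgebra.lift F (fun i => (⟨α i, p i⟩ : MX F)) f).x • y)
      (aeval (LieAlgebra.ad F A y) (FreeLieAlgebra.lift F (fun i => (⟨α i, p i⟩ : MX F)) f).v z) := by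
  induction f using free_ind with
  | h0 =>
    simp only [map_zero, MM.zero_x, MM.zero_v, zero_smul, LinearMap.zero_apply]
    exact J_const 0
  | hof i =>
    simp only [FreeLieAlgebra.lift_of_apply]
    exact J_lin _ _
  | hadd a b ha hb =>
    have := J_add ha hb
    simpa only [map_add, MM.add_x, MM.add_v, add_smul, LinearMap.add_apply] using this
  | hsmul r a ha =>
    have := J_smul r ha
    simpa only [map_smul, MM.smul_x, MM.smul_v, mul_smul, LinearMap.smul_apply] using this
  | hlie a b ha hb =>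
    have := J_lie ha hb
    simp only [LieHom.map_lie, MM.lie_x, MM.lie_v]
    convert this using 1
    · rw [smul_lie, lie_smul, lie_self, smul_zero, smul_zero, zero_smul]
    · rw [map_mul, aeval_X, Module.End.mul_apply, LieAlgebra.ad_apply, map_sub, map_smul, map_smul,
        LinearMap.sub_apply, LinearMap.smul_apply, LinearMap.smul_apply, lie_sub, lie_smul, lie_smul,
        smul_lie, lie_smul, ← lie_skew y (aeval (LieAlgebra.ad F A y)
          (FreeLieAlgebra.lift F (fun i => (⟨α i, p i⟩ : MX F)) a).v z), smul_neg, sub_neg_eq_add]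

/-- (1) a variety which does not contain the algebra of class `c` consists of algebras of smaller
class -/
lemma small_class [CharZero F] {N c : ℕ} (hc1 : 1 ≤ c) {S : Set (FreeLieAlgebra F ℕ)}
    (hS : Var S ⊆ VC F N) (hc : algC F c ∉ Var S) {A : Alg F} (hA : A ∈ Var S) :
    ∃ k < c, NP k A.carrier := by
  obtain ⟨f, hf, x, hx⟩ : ∃ f ∈ S, ∃ x : ℕ → MC F c, FreeLieAlgebra.lift F x f ≠ 0 := by
    by_contra h
    push Not at h
    exact hc fun f hf x => h f hf x
  choose y hy using fun i => proj_surj c (x i)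
  have h1 := lift_map (proj F c) y f
  have h2 : (fun i => proj F c (y i)) = x := funext hy
  rw [h2] at h1
  have h3 : ¬(proj F c (FreeLieAlgebra.lift F y f) = 0) := fun h => hx (h1.trans h)
  rw [proj_zero] at h3
  have hval : ∀ u v : A.carrier, (FreeLieAlgebra.lift F y f).x • u = 0 ∧
      aeval (LieAlgebra.ad F A.carrier u) (FreeLieAlgebra.lift F y f).v v = 0 := fun u v =>
    J_ext (J_val (fun i => (y i).x) (fun i => (y i).v) u v f) fun s => hA f hf _
  by_cases hx0 : (FreeLieAlgebra.lift F y f).x = 0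
  · have h4 : ¬ (X : F[X]) ^ c ∣ (FreeLieAlgebra.lift F y f).v := fun h => h3 ⟨hx0, h⟩
    rw [X_pow_dvd_iff] at h4
    push Not at h4
    obtain ⟨k, hk, hk0⟩ := h4
    refine ⟨k, hk, engel (F := F) (VC_mtb (hS hA)) fun u v => ?_⟩
    have h5 := coeff_ext (LieAlgebra.ad F A.carrier u) v (FreeLieAlgebra.lift F y f).v (fun r => by
      rw [← map_smul]
      exact (hval (r • u) v).2) k
    rw [ad_pow] at h5
    exact (smul_eq_zero.1 h5).resolve_left hk0
  · refine ⟨0, hc1, fun l z hl => ?_⟩
    rw [List.length_eq_zero_iff.1 hl]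
    exact (smul_eq_zero.1 (hval z 0).1).resolve_left hx0

lemma mono_span (f : FreeLieAlgebra F ℕ) :
    f ∈ Submodule.span F {a | ∃ n, Mono F n a} := by
  induction f using free_ind with
  | h0 => exact zero_mem _
  | hof i => exact Submodule.subset_span ⟨1, Mono.var i⟩
  | hadd a b ha hb => exact add_mem ha hb
  | hsmul r a ha => exact Submodule.smul_mem _ r ha
  | hlie a b ha hb =>
    induction ha using Submodule.span_induction with
    | mem a h =>
      obtain ⟨m, hm⟩ := h
      induction hb using Submodule.span_induction with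
      | mem b h =>
        obtain ⟨n, hn⟩ := h
        exact Submodule.subset_span ⟨_, Mono.bracket hm hn⟩
      | zero => rw [lie_zero]; exact zero_mem _
      | add x y _ _ hx hy => rw [lie_add]; exact add_mem hx hy
      | smul r x _ hx => rw [lie_smul]; exact Submodule.smul_mem _ r hx
    | zero => rw [zero_lie]; exact zero_mem _
    | add x y _ _ hx hy => rw [add_lie]; exact add_mem hx hy
    | smul r x _ hx => rw [smul_lie]; exact Submodule.smul_mem _ r hx

lemma decomp (c : ℕ) (f : FreeLieAlgebra F ℕ) : ∃ g h, f = g + h ∧ DegLE c g ∧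
    ∀ (A : Type u) [LieRing A] [LieAlgebra F A], NP c A → ∀ x : ℕ → A,
      FreeLieAlgebra.lift F x h = 0 := by
  induction mono_span f using Submodule.span_induction with
  | mem f hf =>
    obtain ⟨n, hn⟩ := hf
    rcases le_or_gt n c with h | h
    · exact ⟨f, 0, (add_zero f).symm, Submodule.subset_span ⟨n, h, hn⟩,
        fun A _ _ _ x => map_zero _⟩
    · exact ⟨0, f, (zero_add f).symm, zero_mem _, fun A _ _ hA x => mono_zero hA x hn h⟩
  | zero => exact ⟨0, 0, (add_zero 0).symm, zero_mem _, fun A _ _ _ x => map_zero _⟩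
  | add a b _ _ ha hb =>
    obtain ⟨g, h, e, hg, hh⟩ := ha
    obtain ⟨g', h', e', hg', hh'⟩ := hb
    refine ⟨g + g', h + h', by rw [e, e']; abel, add_mem hg hg', fun A _ _ hA x => ?_⟩
    rw [map_add, hh A hA, hh' A hA, add_zero]
  | smul r a _ ha =>
    obtain ⟨g, h, e, hg, hh⟩ := ha
    refine ⟨r • g, r • h, by rw [e, smul_add], Submodule.smul_mem _ r hg, fun A _ _ hA x => ?_⟩
    rw [map_smul, hh A hA, smul_zero]

/-- (2) a variety which contains the algebra of class `c` contains all algebras of class `c` -/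
lemma mem_of_class {N c : ℕ} (hc1 : 1 ≤ c) {S : Set (FreeLieAlgebra F ℕ)}
    (hc : algC F c ∈ Var S) {A : Alg F} (hA : A ∈ VC F N) (h : NP c A.carrier) : A ∈ Var S := by
  intro f hf x
  obtain ⟨g, k, e, hg, hk⟩ := decomp c f
  have h1 : IsIdentity g (algC F c) := by
    intro y
    have h2 := hc f hf y
    rw [e, map_add] at h2
    have hNP : NP c (algC F c).carrier := NP_C hc1
    have h3 : FreeLieAlgebra.lift F y k = 0 := hk (algC F c).carrier hNP y
    rwa [h3, add_zero] at h2
  have h4 : IsIdentity g A := hA g (X_to_C (C_to_X hg h1) N)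
  rw [e, map_add, h4 x, hk _ h x, add_zero]

/-- the subvarieties form a chain -/
theorem chain [CharZero F] {N : ℕ} (hN : 1 ≤ N) : Chain (VC F N) := by
  rintro X Y ⟨S, rfl⟩ hX ⟨T, rfl⟩ hY
  by_contra hcon
  push Not at hcon
  obtain ⟨h1, h2⟩ := hcon
  obtain ⟨A, hA, hA'⟩ := Set.not_subset.1 h1
  apply h2
  intro B hB
  classical
  have hex : ∃ n, NP n A.carrier := ⟨N, VC_NP hN (hX hA)⟩
  have hc := Nat.find_spec hex
  have hmin : ∀ k < Nat.find hex, ¬NP k A.carrier := fun k hk => Nat.find_min hex hk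
  have hc1 : 1 ≤ Nat.find hex := by
    by_contra h0
    have h0 : Nat.find hex = 0 := by omega
    rw [h0] at hc
    exact hA' fun f _ x => hc [] _ rfl
  have h3 : algC F (Nat.find hex) ∉ Var T := fun h => hA' (mem_of_class hc1 h (hX hA) hc)
  have h4 : algC F (Nat.find hex) ∈ Var S := by
    by_contra h
    obtain ⟨k, hk, hk'⟩ := small_class hc1 hX h hA
    exact hmin k hk hk'
  obtain ⟨k, hk, hk'⟩ := small_class hc1 hY h3 hB
  exact mem_of_class hc1 h4 (hY hB) (NP_mono hk.le hk')

lemma isVariety_inter {X Y : Set (Alg F)} (hX : IsVariety X) (hY : IsVariety Y) :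
    IsVariety (X ∩ Y) := by
  obtain ⟨S, rfl⟩ := hX
  obtain ⟨T, rfl⟩ := hY
  refine ⟨S ∪ T, ?_⟩
  ext A
  constructor
  · rintro ⟨h1, h2⟩ f (hf | hf)
    · exact h1 f hf
    · exact h2 f hf
  · intro h
    exact ⟨fun f hf => h f (Or.inl hf), fun f hf => h f (Or.inr hf)⟩

lemma join_of_le {Y Z : Set (Alg F)} (hZ : IsVariety Z) (h : Y ⊆ Z) : join Y Z = Z := by
  ext A
  exact ⟨fun hA => hA Z hZ h subset_rfl, fun hA U _ _ hU => hU hA⟩

lemma join_comm (Y Z : Set (Alg F)) : join Y Z = join Z Y := by
  ext A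
  exact ⟨fun hA U hU h1 h2 => hA U hU h2 h1, fun hA U hU h1 h2 => hA U hU h2 h1⟩

/-- a chain is distributive -/
theorem distributive_of_chain {V : Set (Alg F)} (h : Chain V) : Distributive V := by
  intro X Y Z hX _ hY hYV hZ hZV
  rcases h Y Z hY hYV hZ hZV with h1 | h1
  · rw [join_of_le hZ h1, join_of_le (isVariety_inter hX hZ) (Set.inter_subset_inter_right X h1)]
  · rw [join_comm, join_of_le hY h1, join_comm,
      join_of_le (isVariety_inter hX hY) (Set.inter_subset_inter_right X h1)]

lemma degLE_mono {d N : ℕ} (h : d ≤ N) {f : FreeLieAlgebra F ℕ} (hf : DegLE d f) : DegLE N f :=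
  Submodule.span_mono (by rintro a ⟨n, hn, ha⟩; exact ⟨n, hn.trans h, ha⟩) hf

/-- the variety needs identities of degree greater than `N` -/
theorem not_defined {d N : ℕ} (hN : 1 ≤ N) (hd : d ≤ N) : ¬DefinedInDegree d (VC F N) := by
  rintro ⟨S, hS, e⟩
  have h1 : algX F ∈ VC F N := by
    rw [e]
    intro f hf
    have h2 : algC F N ∈ Var S := by
      rw [← e]
      exact C_mem_VC N
    exact C_to_X (degLE_mono hd (hS f hf)) (h2 f hf)
  have h3 := VC_NP hN h1
  have h4 : rn (List.replicate N (⟨1, 0⟩ : MX F)) (⟨0, 1⟩ : MX F) = 0 :=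
    h3 _ _ (List.length_replicate ..)
  have h5 : ∀ n : ℕ, rn (List.replicate n (⟨1, 0⟩ : MX F)) (⟨0, 1⟩ : MX F) = ⟨0, X ^ n⟩ := by
    intro n
    induction n with
    | zero => simp
    | succ n ih =>
      rw [List.replicate_succ, rn_cons, ih]
      apply MM.ext'
      · rfl
      · simp [pow_succ']
  rw [h5] at h4
  have h6 := congrArg MM.v h4
  exact pow_ne_zero N X_ne_zero h6

end Pool.Agent.Run7.h735.DV
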