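import Pool.Agent.Run7.h735.DV.Defs

set_option autoImplicit false

universe u

open Polynomial

namespace Pool.Agent.Run7.h735.DV

variable {F : Type u} [Field F] {A : Type u} [LieRing A] [LieAlgebra F A]

/-- structural induction -/
theorem free_ind {P : FreeLieAlgebra F ℕ → Prop} (h0 : P 0)
    (hof : ∀ i, P (FreeLieAlgebra.of F i)) (hadd : ∀ a b, P a → P b → P (a + b))
    (hsmul : ∀ (r : F) a, P a → P (r • a)) (hlie : ∀ a b, P a → P b → P ⁅a, b⁆)
    (f : FreeLieAlgebra F ℕ) : P f := by
  let K : LieSubalgebra F (FreeLieAlgebra F ℕ) :=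
    { carrier := {f | P f}
      add_mem' := fun {a b} ha hb => hadd a b ha hb
      zero_mem' := h0
      smul_mem' := fun r a ha => hsmul r a ha
      lie_mem' := fun {a b} ha hb => hlie a b ha hb }
  let φ : FreeLieAlgebra F ℕ →ₗ⁅F⁆ K := FreeLieAlgebra.lift F fun i => (⟨_, hof i⟩ : K)
  have h : K.incl.comp φ = LieHom.id := by
    apply FreeLieAlgebra.hom_ext
    intro i
    simp [φ]
  have h2 : ((φ f : K) : FreeLieAlgebra F ℕ) = f := by
    have := LieHom.congr_fun h f
    simpa using this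
  rw [← h2]
  exact (φ f).2

/-- polynomial functions -/
def PF (F : Type u) [Field F] (A : Type u) [LieRing A] [LieAlgebra F A] : Submodule F (F → A) :=
  Submodule.span F {φ | ∃ (k : ℕ) (a : A), φ = fun s => s ^ k • a}

lemma PF_mono (k : ℕ) (a : A) : (fun s : F => s ^ k • a) ∈ PF F A :=
  Submodule.subset_span ⟨k, a, rfl⟩

lemma PF_const (a : A) : (fun _ : F => a) ∈ PF F A := by
  have := PF_mono (F := F) 0 a
  simpa using this

lemma PF_lie {φ ψ : F → A} (hφ : φ ∈ PF F A) (hψ : ψ ∈ PF F A) :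
    (fun s => ⁅φ s, ψ s⁆) ∈ PF F A := by
  induction hφ using Submodule.span_induction with
  | mem φ h =>
    obtain ⟨k, a, rfl⟩ := h
    induction hψ using Submodule.span_induction with
    | mem ψ h =>
      obtain ⟨l, b, rfl⟩ := h
      have := PF_mono (F := F) (k + l) ⁅a, b⁆
      convert this using 2 with s
      rw [smul_lie, lie_smul, smul_smul, pow_add]
    | zero => simp only [Pi.zero_apply, lie_zero]; exact (PF F A).zero_mem
    | add x y _ _ hx hy =>
      have := (PF F A).add_mem hx hy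
      convert this using 2 with s
      simp only [Pi.add_apply, lie_add]
    | smul r x _ hx =>
      have := (PF F A).smul_mem r hx
      convert this using 2 with s
      simp only [Pi.smul_apply, lie_smul]
  | zero => simp only [Pi.zero_apply, zero_lie]; exact (PF F A).zero_mem
  | add x y _ _ hx hy =>
    have := (PF F A).add_mem hx hy
    convert this using 2 with s
    simp only [Pi.add_apply, add_lie]
  | smul r x _ hx =>
    have := (PF F A).smul_mem r hx
    convert this using 2 with s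
    simp only [Pi.smul_apply, smul_lie]

lemma PF_s {φ : F → A} (hφ : φ ∈ PF F A) : (fun s => s • φ s) ∈ PF F A := by
  induction hφ using Submodule.span_induction with
  | mem φ h =>
    obtain ⟨k, a, rfl⟩ := h
    have := PF_mono (F := F) (k + 1) a
    have e : (fun s : F => s • s ^ k • a) = fun s => s ^ (k + 1) • a := by
      funext s
      rw [smul_smul, pow_succ']
    rw [e]
    exact this
  | zero =>
    have e : (fun s : F => s • (0 : F → A) s) = 0 := by
      funext s
      rw [Pi.zero_apply, smul_zero]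
    rw [e]
    exact (PF F A).zero_mem
  | add x y _ _ hx hy =>
    have := (PF F A).add_mem hx hy
    convert this using 2 with s
    simp only [Pi.add_apply, smul_add]
  | smul r x _ hx =>
    have := (PF F A).smul_mem r hx
    convert this using 2 with s
    simp only [Pi.smul_apply]
    rw [smul_comm]

lemma PF_dual {φ : F → A} (hφ : φ ∈ PF F A) (l : Module.Dual F A) :
    ∃ P : F[X], ∀ s, l (φ s) = P.eval s := by
  induction hφ using Submodule.span_induction with
  | mem φ h =>
    obtain ⟨k, a, rfl⟩ := h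
    refine ⟨C (l a) * X ^ k, fun s => ?_⟩
    rw [map_smul, smul_eq_mul, eval_mul, eval_C, eval_pow, eval_X, mul_comm]
  | zero => exact ⟨0, fun s => by simp⟩
  | add x y _ _ hx hy =>
    obtain ⟨P, hP⟩ := hx
    obtain ⟨Q, hQ⟩ := hy
    exact ⟨P + Q, fun s => by simp [hP, hQ]⟩
  | smul r x _ hx =>
    obtain ⟨P, hP⟩ := hx
    exact ⟨C r * P, fun s => by simp [hP]⟩

/-- `φ` is a polynomial function whose first two coefficients are `c0`, `c1` -/
def J (φ : F → A) (c0 c1 : A) : Prop := ∃ ψ ∈ PF F A, ∀ s, φ s = c0 + s • c1 + s ^ 2 • ψ s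

lemma J_lin (c0 c1 : A) : J (fun s : F => c0 + s • c1) c0 c1 :=
  ⟨0, (PF F A).zero_mem, fun s => by simp⟩

lemma J_const (c : A) : J (fun _ : F => c) c 0 :=
  ⟨0, (PF F A).zero_mem, fun s => by simp⟩

lemma J_add {φ φ' : F → A} {c0 c1 c0' c1' : A} (h : J φ c0 c1) (h' : J φ' c0' c1') :
    J (fun s => φ s + φ' s) (c0 + c0') (c1 + c1') := by
  obtain ⟨ψ, h1, h2⟩ := h
  obtain ⟨ψ', h1', h2'⟩ := h'
  refine ⟨ψ + ψ', (PF F A).add_mem h1 h1', fun s => ?_⟩
  simp only [h2, h2', Pi.add_apply, smul_add]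
  abel

lemma J_smul {φ : F → A} {c0 c1 : A} (r : F) (h : J φ c0 c1) :
    J (fun s => r • φ s) (r • c0) (r • c1) := by
  obtain ⟨ψ, h1, h2⟩ := h
  refine ⟨r • ψ, (PF F A).smul_mem r h1, fun s => ?_⟩
  simp only [h2, Pi.smul_apply, smul_add]
  rw [smul_comm r s c1, smul_comm r (s ^ 2) (ψ s)]

lemma J_lie {φ φ' : F → A} {c0 c1 c0' c1' : A} (h : J φ c0 c1) (h' : J φ' c0' c1') :
    J (fun s => ⁅φ s, φ' s⁆) ⁅c0, c0'⁆ (⁅c0, c1'⁆ + ⁅c1, c0'⁆) := by
  obtain ⟨ψ, h1, h2⟩ := h
  obtain ⟨ψ', h1', h2'⟩ := h'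
  refine ⟨_, (PF F A).add_mem ((PF F A).add_mem ((PF F A).add_mem (PF_lie (PF_const c0) h1')
    (PF_lie h1 (PF_const c0'))) (PF_const ⁅c1, c1'⁆)) ((PF F A).add_mem
    (PF_s (PF_lie (PF_const c1) h1')) ((PF F A).add_mem (PF_s (PF_lie h1 (PF_const c1')))
    (PF_s (PF_s (PF_lie h1 h1'))))), fun s => ?_⟩
  simp only [h2, h2', Pi.add_apply, lie_add, add_lie, lie_smul, smul_lie, smul_add, smul_smul]
  have e1 : s ^ 2 * s = s ^ 3 := by ring
  have e3 : s * s ^ 2 = s ^ 3 := by ring
  have e4 : s ^ 2 * s ^ 2 = s ^ 4 := by ring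
  have e5 : s * s = s ^ 2 := by ring
  simp only [e1, e3, e4, e5]
  abel

lemma J_ext [Infinite F] {φ : F → A} {c0 c1 : A} (h : J φ c0 c1) (h0 : ∀ s, φ s = 0) :
    c0 = 0 ∧ c1 = 0 := by
  obtain ⟨ψ, h1, h2⟩ := h
  have key : ∀ l : Module.Dual F A, l c0 = 0 ∧ l c1 = 0 := by
    intro l
    obtain ⟨P, hP⟩ := PF_dual h1 l
    have h3 : C (l c0) + X * C (l c1) + X ^ 2 * P = 0 := by
      apply Polynomial.funext
      intro s
      have := congrArg l ((h2 s).symm.trans (h0 s))
      simp only [map_add, map_smul, smul_eq_mul, hP, map_zero] at this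
      simp only [eval_add, eval_mul, eval_C, eval_X, eval_pow, eval_zero]
      exact this
    have h4 := congrArg (fun Q => Q.coeff 0) h3
    have h5 := congrArg (fun Q => Q.coeff 1) h3
    simp at h4
    have h6 : (X ^ 2 * P).coeff 1 = 0 := by rw [coeff_X_pow_mul']; simp
    have h7 : (X * C (l c1) : F[X]).coeff 1 = l c1 := by rw [mul_comm, coeff_mul_X]; simp
    simp only [coeff_add, h6, h7, coeff_zero, add_zero] at h5
    rw [coeff_C_of_ne_zero one_ne_zero, zero_add] at h5
    exact ⟨h4, h5⟩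
  exact ⟨(Module.forall_dual_apply_eq_zero_iff F c0).1 fun l => (key l).1,
    (Module.forall_dual_apply_eq_zero_iff F c1).1 fun l => (key l).2⟩

/-- coefficients of a polynomial function -/
lemma coeff_ext [Infinite F] (T : Module.End F A) (z : A) (Q : F[X])
    (h : ∀ r : F, aeval (r • T) Q z = 0) (k : ℕ) : Q.coeff k • (T ^ k) z = 0 := by
  refine (Module.forall_dual_apply_eq_zero_iff F _).1 fun l => ?_
  have h3 : (∑ i ∈ Finset.range (Q.natDegree + 1), C (Q.coeff i * l ((T ^ i) z)) * X ^ i : F[X]) =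
      0 := by
    apply Polynomial.funext
    intro r
    have := congrArg l (h r)
    rw [aeval_eq_sum_range' (Nat.lt_succ_self _)] at this
    rw [Polynomial.eval_zero]
    simp only [eval_finsetSum, eval_mul, eval_C, eval_pow, eval_X]
    simp only [LinearMap.sum_apply, map_sum, LinearMap.smul_apply, _root_.smul_pow, map_smul, map_zero,
      smul_eq_mul] at this
    rw [← this]
    refine Finset.sum_congr rfl fun i _ => by ring
  have h4 := congrArg (fun P => P.coeff k) h3
  simp only [finsetSum_coeff, coeff_C_mul, coeff_X_pow, coeff_zero] at h4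
  rw [map_smul, smul_eq_mul]
  by_cases hk : k ∈ Finset.range (Q.natDegree + 1)
  · rw [Finset.sum_eq_single k (fun i _ hi => by simp [Ne.symm hi]) (fun h' => absurd hk h')] at h4
    simpa using h4
  · rw [coeff_eq_zero_of_natDegree_lt (by simpa using hk), zero_mul]

end Pool.Agent.Run7.h735.DV
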